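import Pool.Agent.Helper6.DG.Defs

/-!
# Project DIAG (MP_e0aac0_nt): the arithmetic core from the bilinear core, the sieve transfer and
the positive density of primes `≡ 1 mod q`
-/

set_option autoImplicit false

namespace DG

open Finset Filter Topology

namespace CA

theorem W_eq_sum (c : ℤ →₀ ℝ) (a : ℤ → ℂ) : W c a = c.sum (fun m x => (x : ℂ) * a m) := rfl

theorem W_zero (a : ℤ → ℂ) : W 0 a = 0 := by
  rw [W_eq_sum, Finsupp.sum_zero_index]

theorem W_sub (c d : ℤ →₀ ℝ) (a : ℤ → ℂ) : W (c - d) a = W c a - W d a := by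
  rw [W_eq_sum, W_eq_sum, W_eq_sum]
  apply Finsupp.sum_sub_index
  intro m x y
  push_cast
  ring

theorem W_sum {ι : Type*} (s : Finset ι) (c : ι → ℤ →₀ ℝ) (a : ℤ → ℂ) :
    W (∑ i ∈ s, c i) a = ∑ i ∈ s, W (c i) a := by
  rw [W_eq_sum, ← Finsupp.sum_finsetSum_index]
  · rfl
  · intro m
    simp
  · intro m x y
    push_cast
    ring

theorem W_single (m : ℤ) (x : ℝ) (a : ℤ → ℂ) : W (Finsupp.single m x) a = (x : ℂ) * a m := by
  rw [W_eq_sum, Finsupp.sum_single_index]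
  simp

theorem E_W (X : Sys) (c : ℤ →₀ ℝ) (F : ℤ → X.S → ℂ) :
    X.μ.E (fun x => W c (fun m => F m x)) = W c (fun m => X.μ.E (F m)) := by
  unfold W
  rw [X.μ.E_sum]
  refine Finset.sum_congr rfl fun m _ => ?_
  exact X.μ.E_const_mul _ _

theorem W_law2 (A B : Finset ℕ) (f : ℤ → ℂ) :
    W (law2 A B) f = (1 / (B.card : ℂ)) * ∑ b ∈ B,
      ((1 / (A.card : ℂ)) * ∑ a ∈ A, f ((1 * a : ℤ) * b)) := by
  unfold law2
  rw [W_sum]
  simp only [W_sum, W_single]
  rw [Finset.sum_comm, Finset.mul_sum]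
  refine Finset.sum_congr rfl fun b _ => ?_
  rw [← mul_assoc, Finset.mul_sum]
  refine Finset.sum_congr rfl fun a _ => ?_
  push_cast
  rw [one_mul]
  congr 1
  rw [one_div_mul_one_div, mul_comm (B.card : ℂ)]

theorem W_law3 (A B C : Finset ℕ) (f : ℤ → ℂ) :
    W (law3 A B C) f = (1 / (B.card : ℂ)) * ∑ b ∈ B, ((1 / (C.card : ℂ)) * ∑ c ∈ C,
      ((1 / (A.card : ℂ)) * ∑ a ∈ A, f ((b * a : ℤ) * c))) := by
  unfold law3
  rw [W_sum]
  simp only [W_sum, W_single]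
  rw [Finset.sum_comm, Finset.mul_sum]
  refine Finset.sum_congr rfl fun b _ => ?_
  rw [Finset.sum_comm, ← mul_assoc, Finset.mul_sum]
  refine Finset.sum_congr rfl fun c _ => ?_
  rw [← mul_assoc, Finset.mul_sum]
  refine Finset.sum_congr rfl fun a _ => ?_
  push_cast
  rw [mul_comm (b : ℤ) (a : ℤ)]
  congr 1
  rw [one_div_mul_one_div, one_div_mul_one_div]
  congr 1
  ring

/-- the square of an average is at most the average of the squares -/
theorem sq_avg_le (B : Finset ℕ) (z : ℕ → ℂ) :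
    ‖(1 / (B.card : ℂ)) * ∑ b ∈ B, z b‖ ^ 2 ≤ (1 / (B.card : ℝ)) * ∑ b ∈ B, ‖z b‖ ^ 2 := by
  rcases B.eq_empty_or_nonempty with rfl | hB
  · simp
  · have hc : (0 : ℝ) < B.card := by exact_mod_cast hB.card_pos
    have h1 : ‖∑ b ∈ B, z b‖ ^ 2 ≤ B.card * ∑ b ∈ B, ‖z b‖ ^ 2 := by
      refine (pow_le_pow_left₀ (norm_nonneg _) (norm_sum_le _ _) 2).trans ?_
      exact sq_sum_le_card_mul_sum_sq
    rw [norm_mul, mul_pow, norm_div, norm_one, Complex.norm_natCast]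
    calc (1 / (B.card : ℝ)) ^ 2 * ‖∑ b ∈ B, z b‖ ^ 2
        ≤ (1 / (B.card : ℝ)) ^ 2 * (B.card * ∑ b ∈ B, ‖z b‖ ^ 2) :=
          mul_le_mul_of_nonneg_left h1 (by positivity)
      _ = (1 / (B.card : ℝ)) * ∑ b ∈ B, ‖z b‖ ^ 2 := by
          field_simp

theorem norm_avg_le (B : Finset ℕ) (z : ℕ → ℂ) {δ : ℝ} (hδ : 0 ≤ δ) (h : ∀ b ∈ B, ‖z b‖ ≤ δ) :
    ‖(1 / (B.card : ℂ)) * ∑ b ∈ B, z b‖ ≤ δ := by
  rcases B.eq_empty_or_nonempty with rfl | hB
  · simpa using hδ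
  · have hc : (0 : ℝ) < B.card := by exact_mod_cast hB.card_pos
    have h1 : ‖∑ b ∈ B, z b‖ ≤ B.card * δ := by
      refine (norm_sum_le _ _).trans ?_
      refine (Finset.sum_le_sum h).trans ?_
      rw [Finset.sum_const, nsmul_eq_mul]
    rw [norm_mul, norm_div, norm_one, Complex.norm_natCast]
    calc (1 / (B.card : ℝ)) * ‖∑ b ∈ B, z b‖ ≤ (1 / (B.card : ℝ)) * (B.card * δ) :=
          mul_le_mul_of_nonneg_left h1 (by positivity)
      _ = δ := by field_simp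

theorem MM_ge (D q M0 : ℕ) (hD : 1 ≤ D) (hq : 1 ≤ q) : ∀ᶠ Y : ℕ in atTop, M0 ≤ MM D q Y := by
  filter_upwards [eventually_ge_atTop (M0 * (D * q))] with Y hY
  unfold MM
  have h1 : M0 ≤ Y / (D * q) := (Nat.le_div_iff_mul_le (Nat.mul_pos hD hq)).2 hY
  omega

/-- `(w / |P|) w ^ (-δ)` is small for the primes `≡ 1 mod q` in `[w, (1 + 1/D) w]` -/
theorem P_small (hPR : PR) (D q : ℕ) (hD : 1 ≤ D) (hq : 1 ≤ q) {δ κ : ℝ} (hδ : 0 < δ)
    (hκ : 0 < κ) : ∀ᶠ w : ℕ in atTop, (PW D q w).Nonempty ∧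
      (w : ℝ) / (PW D q w).card * (w : ℝ) ^ (-δ) ≤ κ := by
  obtain ⟨c, hc, h⟩ := hPR D hD
  have hφ : (0 : ℝ) < q.totient := by exact_mod_cast Nat.totient_pos.2 hq
  have hlog : Tendsto (fun w : ℕ => Real.log (w : ℝ) / (w : ℝ) ^ δ) atTop (𝓝 0) := by
    have h1 : Tendsto (fun x : ℝ => Real.log x / x ^ δ) atTop (𝓝 0) :=
      (isLittleO_log_rpow_atTop hδ).tendsto_div_nhds_zero
    exact h1.comp tendsto_natCast_atTop_atTop
  have hsmall : ∀ᶠ w : ℕ in atTop, Real.log (w : ℝ) / (w : ℝ) ^ δ ≤ κ * c / q.totient := by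
    have : 0 < κ * c / q.totient := by positivity
    exact hlog.eventually (ge_mem_nhds this) |>.mono fun w hw => hw
  filter_upwards [h q hq, hsmall, eventually_ge_atTop 2] with w h1 h2 h3
  have hw2 : (2 : ℝ) ≤ w := by exact_mod_cast h3
  have hw0 : (0 : ℝ) < w := by linarith
  have hl : 0 < Real.log (w : ℝ) := Real.log_pos (by linarith)
  have hlow : 0 < c * w / (q.totient * Real.log w) := by positivity
  have hcard : (0 : ℝ) < (PW D q w).card := hlow.trans_le h1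
  refine ⟨Finset.card_pos.1 (by exact_mod_cast hcard), ?_⟩
  have hwd : 0 < (w : ℝ) ^ δ := Real.rpow_pos_of_pos hw0 _
  rw [Real.rpow_neg hw0.le]
  have h4 : (w : ℝ) / (PW D q w).card ≤ q.totient * Real.log w / c := by
    rw [div_le_div_iff₀ hcard hc]
    rw [div_le_iff₀ (by positivity)] at h1
    linarith
  calc (w : ℝ) / (PW D q w).card * ((w : ℝ) ^ δ)⁻¹
      ≤ q.totient * Real.log w / c * ((w : ℝ) ^ δ)⁻¹ :=
        mul_le_mul_of_nonneg_right h4 (by positivity)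
    _ = q.totient / c * (Real.log w / (w : ℝ) ^ δ) := by
        field_simp
    _ ≤ q.totient / c * (κ * c / q.totient) :=
        mul_le_mul_of_nonneg_left h2 (by positivity)
    _ = κ := by
        field_simp

theorem PW_mem {D q w p : ℕ} (_hD : 1 ≤ D) (hp : p ∈ PW D q w) : p.Prime ∧ w ≤ p ∧ p ≤ 2 * w := by
  unfold PW at hp
  rw [Finset.mem_filter, Finset.mem_Icc] at hp
  obtain ⟨⟨h1, h2⟩, h3, _⟩ := hp
  have : w / D ≤ w := Nat.div_le_self _ _
  exact ⟨h3, h1, by omega⟩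

theorem small (D : ℕ) (hD : 1 ≤ D) (k : ℕ) (hBL : BL k) (hSVT : SVT k) (hPR : PR) :
    ∀ a : ℝ, 0 < a → ∃ b : ℝ, 0 < b ∧ ∀ (X : Sys) (g : X.S → ℂ), (∀ x, ‖g x‖ ≤ 1) →
      (∀ r : ℕ, 0 < r → (box X (List.replicate k (r : ℤ)) g).re ≤ b) →
      ∀ᶠ N : ℕ in atTop, ∀ᶠ w : ℕ in atTop, ∀ e : ℕ, 1 ≤ e → ∀ᶠ Y : ℕ in atTop,
        ∀ G : ℕ → X.S → ℂ, (∀ i x, ‖G i x‖ ≤ 1) → G k = g →
          (1 / ((PW D N.factorial Y).card : ℝ)) * ∑ p' ∈ PW D N.factorial Y,
            ‖(1 / ((PW D N.factorial w).card : ℂ)) * ∑ p ∈ PW D N.factorial w,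
              X.μ.E (cor X k G ((e * p : ℤ) * p'))‖ ^ 2 ≤ a := by
  intro a ha
  obtain ⟨C, hC, hBL⟩ := hBL
  obtain ⟨K, hK, hS⟩ := hSVT D hD (a / 2) (by positivity)
  set θ : ℝ := (a / (2 * K)) ^ (2 ^ k) with hθ
  have hθ0 : 0 < θ := by positivity
  refine ⟨θ / (4 * C), by positivity, ?_⟩
  intro X g hg hbox
  filter_upwards [hS] with N hSN
  have hq : 1 ≤ N.factorial := Nat.factorial_pos N
  have hδ : (0 : ℝ) < 1 / 2 ^ (2 ^ (k - 1)) := by positivity
  filter_upwards [P_small hPR D N.factorial hD hq hδ (κ := θ / (4 * C)) (by positivity),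
    eventually_ge_atTop 1] with w hw hw1
  obtain ⟨hne, hwP⟩ := hw
  intro e he
  obtain ⟨M0, hM0⟩ := hBL w (PW D N.factorial w) hw1 hne (fun p hp => PW_mem hD hp) e N.factorial
    he hq X g hg (θ / (4 * C)) hbox (θ / 4) (by positivity)
  filter_upwards [hSN, MM_ge D N.factorial M0 hD hq] with Y hY hMY
  intro G hG hGk
  have h1 := hY X e (PW D N.factorial w) he hne (fun p hp => (PW_mem hD hp).1.one_lt.le) G hG
  have h2 := hM0 (MM D N.factorial Y) hMY (tt N.factorial Y) G hG hGk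
  set x : ℝ := (1 / ((MM D N.factorial Y : ℕ) : ℝ)) * ∑ j ∈ range (MM D N.factorial Y),
    ‖(1 / ((PW D N.factorial w).card : ℂ)) * ∑ p ∈ PW D N.factorial w, X.μ.E (cor X k G
      ((e * p : ℤ) * (1 + (N.factorial : ℤ) * ((tt N.factorial Y : ℤ) + j))))‖ ^ 2 with hx
  have hx0 : 0 ≤ x := by positivity
  have h3 : x ^ (2 ^ k) ≤ (a / (2 * K)) ^ (2 ^ k) := by
    refine h2.trans ?_
    have h4 : C * ((w : ℝ) / (PW D N.factorial w).card *
        (w : ℝ) ^ (-(1 / 2 ^ (2 ^ (k - 1)) : ℝ)) + θ / (4 * C)) ≤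
        C * (θ / (4 * C) + θ / (4 * C)) :=
      mul_le_mul_of_nonneg_left (by linarith) hC.le
    have h5 : C * (θ / (4 * C) + θ / (4 * C)) = θ / 2 := by
      field_simp
      ring
    rw [← hθ]
    linarith
  have h6 : x ≤ a / (2 * K) := by
    refine le_of_not_gt fun hlt => ?_
    exact absurd h3 (not_le.2 (pow_lt_pow_left₀ hlt (by positivity) (by positivity)))
  refine h1.trans ?_
  have h7 : K * x ≤ a / 2 := by
    calc K * x ≤ K * (a / (2 * K)) := mul_le_mul_of_nonneg_left h6 hK.le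
      _ = a / 2 := by field_simp
  linarith

theorem good_le_atTop {V : Ultrafilter ℕ} (hV : GoodU V) : (V : Filter ℕ) ≤ atTop := by
  rw [atTop_basis.ge_iff]
  intro n _
  apply hV
  unfold SFset
  apply summable_of_ne_finset_zero (s := range n)
  intro j hj
  rw [Finset.mem_range, not_lt] at hj
  apply Set.indicator_of_notMem
  simp only [Set.mem_compl_iff, Set.mem_Ici, not_not]
  exact hj

theorem norm_avg_le_of_sq (B : Finset ℕ) (z : ℕ → ℂ) {δ : ℝ} (hδ : 0 ≤ δ)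
    (h : (1 / (B.card : ℝ)) * ∑ b ∈ B, ‖z b‖ ^ 2 ≤ δ ^ 2) :
    ‖(1 / (B.card : ℂ)) * ∑ b ∈ B, z b‖ ≤ δ :=
  le_of_sq_le_sq ((sq_avg_le B z).trans h) hδ

end CA

open CA in
theorem stCoreArith (hBL : ∀ k, 1 ≤ k → BL k) (hSVT : ∀ k, SVT k) (hPR : PR) : StCoreArith := by
  intro D hD V U hV hIter k hk a ha
  obtain ⟨b, hb, hsmall⟩ := small D hD k (hBL k hk) (hSVT k) hPR (a ^ 2 / 16) (by positivity)
  refine ⟨b, hb, ?_⟩
  intro X g hg hfreq
  by_contra hcon
  push Not at hcon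
  have hsm := hsmall X g hg (fun r hr => (hcon r hr).le)
  have hVt : (V : Filter ℕ) ≤ atTop := good_le_atTop hV
  have h2 : Tendsto (fun i : ℕ => 2 ^ i) (V : Filter ℕ) atTop :=
    (tendsto_pow_atTop_atTop_of_one_lt (r := 2) one_lt_two).mono_left hVt
  apply hfreq
  rw [hIter]
  filter_upwards [(Nat.hyperfilter_le_atTop) hsm] with N hN
  filter_upwards [h2.eventually hN] with i hi
  filter_upwards with j
  have h3 : ∀ᶠ l in (V : Filter ℕ), ∀ e ∈ PW D N.factorial (2 ^ j),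
      ∀ G : ℕ → X.S → ℂ, (∀ i x, ‖G i x‖ ≤ 1) → G k = g →
          (1 / ((PW D N.factorial (2 ^ (l - j))).card : ℝ)) *
            ∑ p' ∈ PW D N.factorial (2 ^ (l - j)),
            ‖(1 / ((PW D N.factorial (2 ^ i)).card : ℂ)) * ∑ p ∈ PW D N.factorial (2 ^ i),
              X.μ.E (cor X k G ((e * p : ℤ) * p'))‖ ^ 2 ≤ a ^ 2 / 16 := by
    rw [Filter.eventually_all_finset]
    intro e he
    have h4 : Tendsto (fun l : ℕ => 2 ^ (l - j)) (V : Filter ℕ) atTop := by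
      refine (tendsto_pow_atTop_atTop_of_one_lt (r := 2) one_lt_two).comp ?_
      exact (tendsto_sub_atTop_nat j).mono_left hVt
    exact h4.eventually (hi e (PW_mem hD he).1.one_lt.le)
  filter_upwards [h2.eventually (hi 1 le_rfl), h3] with l hl1 hl2
  rintro ⟨G, hG, hGk, hle⟩
  rw [E_W] at hle
  unfold cw at hle
  split_ifs at hle with hne
  · rw [W_sub, W_law2, W_law3] at hle
    have hA := norm_avg_le_of_sq _ _ (δ := a / 4) (by positivity)
      ((hl1 G hG hGk).trans (by ring_nf; exact le_rfl))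
    have hB := norm_avg_le (PW D N.factorial (2 ^ j))
      (fun e => (1 / ((PW D N.factorial (2 ^ (l - j))).card : ℂ)) *
            ∑ p' ∈ PW D N.factorial (2 ^ (l - j)),
            ((1 / ((PW D N.factorial (2 ^ i)).card : ℂ)) * ∑ p ∈ PW D N.factorial (2 ^ i),
              X.μ.E (cor X k G ((e * p : ℤ) * p')))) (δ := a / 4) (by positivity)
      (fun e he => norm_avg_le_of_sq _ _ (δ := a / 4) (by positivity)
        ((hl2 e he G hG hGk).trans (by ring_nf; exact le_rfl)))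
    have hC := norm_sub_le_of_le hA hB
    have hD' := hle.trans hC
    linarith
  · rw [W_zero, norm_zero] at hle
    linarith

end DG
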